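import Mathlib
import Pool.Agent.Helpers.H19dPal

/-!
# MP_8bc403_al : palindromic width depends on the finite generating set
-/

namespace Pool.Agent.Results.MP_8bc403_al.PalWidth

open FreeGroup

/-- The element of `G` represented by a word in the alphabet `X^{±1}`; the letter `(x, true)`
stands for `x` and `(x, false)` for `x⁻¹`. -/
def eval {G : Type} [Group G] (X : Finset G) (w : List (X × Bool)) : G :=
  (w.map fun l => if l.2 then (l.1 : G) else (l.1 : G)⁻¹).prod

/-- A word in the alphabet `X^{±1}` is reduced: no two consecutive letters `x x⁻¹` or `x⁻¹ x`. -/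
def Reduced {G : Type} {X : Finset G} (w : List (X × Bool)) : Prop :=
  ¬ ∃ (u v : List (X × Bool)) (x : X) (b : Bool), w = u ++ (x, b) :: (x, !b) :: v

/-- `p` is a palindrome with respect to `X`: it is represented by a reduced word in the alphabet
`X^{±1}` whose sequence of letters reads the same from left to right and from right to left. -/
def IsPalindrome {G : Type} [Group G] (X : Finset G) (p : G) : Prop :=
  ∃ w : List (X × Bool), Reduced w ∧ w.reverse = w ∧ eval X w = p

/-- `g` is a product of `k` palindromes. -/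
def ProdOfPalindromes {G : Type} [Group G] (X : Finset G) (k : ℕ) (g : G) : Prop :=
  ∃ ps : List G, ps.length = k ∧ (∀ p ∈ ps, IsPalindrome X p) ∧ ps.prod = g

/-- The palindromic length of `g`: the least `k` such that `g` is a product of `k` palindromes. -/
noncomputable def palLength {G : Type} [Group G] (X : Finset G) (g : G) : ℕ∞ :=
  ⨅ (k : ℕ) (_ : ProdOfPalindromes X k g), (k : ℕ∞)

/-- The palindromic width of `G` with respect to `X`. -/
noncomputable def palWidth {G : Type} [Group G] (X : Finset G) : ℕ∞ :=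
  ⨆ g : G, palLength X g

theorem reduced_of_isReduced {G : Type} {X : Finset G} {w : List (X × Bool)}
    (h : FreeGroup.IsReduced w) : Reduced w := by
  rintro ⟨u, v, x, b, rfl⟩
  rw [FreeGroup.IsReduced, List.isChain_iff_forall_rel_of_append_cons_cons] at h
  have := h (a := (x, b)) (b := (x, !b)) (l₁ := u) (l₂ := v) rfl rfl
  simp at this

theorem red_reverse {α : Type} {L M : List (α × Bool)} (h : Red L M) :
    Red L.reverse M.reverse := by
  have step : ∀ a b : List (α × Bool), Red.Step a b → Red.Step a.reverse b.reverse := by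
    intro a b hab
    cases hab with
    | @not L₁ L₂ x b =>
      simp only [List.reverse_append, List.reverse_cons, List.append_assoc,
        List.cons_append, List.nil_append]
      exact Red.Step.not_rev
  induction h with
  | refl => exact Red.refl
  | tail _ hab ih => exact ih.tail (step _ _ hab)

theorem reduce_reverse {α : Type} [DecidableEq α] (L : List (α × Bool)) :
    reduce L.reverse = (reduce L).reverse := by
  have h1 : Red L.reverse (reduce L).reverse := red_reverse reduce.red
  have h2 : IsReduced (reduce L).reverse := by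
    have h3 : IsReduced (reduce L) := by
      rw [isReduced_iff_reduce_eq]; exact reduce.idem
    unfold FreeGroup.IsReduced at h3 ⊢
    rw [List.isChain_reverse]
    apply h3.imp
    intro a b hab h
    exact (hab h.symm).symm
  rw [reduce.eq_of_red h1]
  exact h2.reduce_eq

theorem eval_eq_lift {G : Type} [Group G] (X : Finset G) (w : List (X × Bool)) :
    eval X w = FreeGroup.lift (fun x : X => (x : G)) (FreeGroup.mk w) := by
  rw [FreeGroup.lift_mk, eval]
  congr 1
  apply List.map_congr_left
  rintro ⟨x, b⟩ -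
  cases b <;> rfl

theorem eval_reduce {G : Type} [Group G] [DecidableEq G] (X : Finset G) (w : List (X × Bool)) :
    eval X (reduce w) = eval X w := by
  rw [eval_eq_lift, eval_eq_lift, reduce.self]

/-- A palindromic list of letters gives a palindrome. -/
theorem pal_of_list {G : Type} [Group G] [DecidableEq G] (X : Finset G) (x₀ : G) (hx₀ : x₀ ∈ X)
    (w : List G) (hw : ∀ x ∈ w, x ∈ X ∨ x⁻¹ ∈ X) (hr : w.reverse = w) :
    IsPalindrome X w.prod := by
  let c : G → X × Bool := fun x =>
    if h : x ∈ X then (⟨x, h⟩, true) else if h' : x⁻¹ ∈ X then (⟨x⁻¹, h'⟩, false)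
      else (⟨x₀, hx₀⟩, true)
  have hc : ∀ x, (x ∈ X ∨ x⁻¹ ∈ X) → (if (c x).2 then ((c x).1 : G) else ((c x).1 : G)⁻¹) = x := by
    intro x hx
    by_cases h : x ∈ X
    · simp [c, h]
    · have h' : x⁻¹ ∈ X := hx.resolve_left h
      simp [c, h, h']
  refine ⟨reduce (w.map c), ?_, ?_, ?_⟩
  · apply reduced_of_isReduced
    rw [isReduced_iff_reduce_eq]
    exact reduce.idem
  · rw [← reduce_reverse, ← List.map_reverse, hr]
  · rw [eval_reduce, eval, List.map_map]
    congr 1
    conv_rhs => rw [← List.map_id w]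
    apply List.map_congr_left
    intro x hx
    exact hc x (hw x hx)

theorem list_of_pal {G : Type} [Group G] (X : Finset G) {p : G} (h : IsPalindrome X p) :
    ∃ w : List G, (∀ x ∈ w, x ∈ X ∨ x⁻¹ ∈ X) ∧ w.reverse = w ∧ w.prod = p := by
  obtain ⟨w, -, h2, h3⟩ := h
  refine ⟨w.map (fun l : X × Bool => if l.2 then (l.1 : G) else (l.1 : G)⁻¹), ?_, ?_, h3⟩
  · intro x hx
    obtain ⟨⟨y, b⟩, -, rfl⟩ := List.mem_map.1 hx
    cases b
    · right; simp
    · left; simp
  · rw [← List.map_reverse, h2]

/-- The generating set `a, b, ab` of the free group on `a = of 0`, `b = of 1`. -/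
def X : Finset (FreeGroup (Fin 2)) :=
  {FreeGroup.of 0, FreeGroup.of 1, FreeGroup.of 0 * FreeGroup.of 1}

/-- The generating set `a, b`. -/
def Y : Finset (FreeGroup (Fin 2)) := {FreeGroup.of 0, FreeGroup.of 1}

theorem closX : Subgroup.closure (X : Set (FreeGroup (Fin 2))) = ⊤ := by
  rw [eq_top_iff, ← FreeGroup.closure_range_of, Subgroup.closure_le]
  rintro _ ⟨i, rfl⟩
  apply Subgroup.subset_closure
  fin_cases i <;> simp [X]

theorem closY : Subgroup.closure (Y : Set (FreeGroup (Fin 2))) = ⊤ := by
  rw [eq_top_iff, ← FreeGroup.closure_range_of, Subgroup.closure_le]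
  rintro _ ⟨i, rfl⟩
  apply Subgroup.subset_closure
  fin_cases i <;> simp [Y]

theorem palX (g : FreeGroup (Fin 2)) : ProdOfPalindromes X 3 g := by
  classical
  obtain ⟨m, n, k, hk, hg⟩ := Pool.Agent.Helpers.H19d.finite_width g
  have hX : ∀ x : FreeGroup (Fin 2), x ∈ Pool.Agent.Helpers.H19d.X3 ↔ x ∈ X := by
    intro x
    simp [Pool.Agent.Helpers.H19d.X3, X]
  refine ⟨[FreeGroup.of 0 ^ m, FreeGroup.of 1 ^ n, k], rfl, ?_, ?_⟩
  · intro p hp
    have h3 : ∃ w : List (FreeGroup (Fin 2)), (∀ x ∈ w, x ∈ Pool.Agent.Helpers.H19d.X3 ∨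
        x⁻¹ ∈ Pool.Agent.Helpers.H19d.X3) ∧ w.reverse = w ∧ w.prod = p := by
      simp only [List.mem_cons, List.not_mem_nil, or_false] at hp
      rcases hp with h | h | h
      · rw [h]; exact Pool.Agent.Helpers.H19d.pal_zpow (Or.inl rfl) m
      · rw [h]; exact Pool.Agent.Helpers.H19d.pal_zpow (Or.inr (Or.inl rfl)) n
      · rw [h]; exact Pool.Agent.Helpers.H19d.pal_of_mem hk
    obtain ⟨w, hw, h1, rfl⟩ := h3
    exact pal_of_list X (FreeGroup.of 0) (by simp [X]) w
      (fun x hx => by rw [← hX, ← hX]; exact hw x hx) h1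
  · rw [hg]; simp [mul_assoc]

/-- The palindromic width of the free group on `a`, `b` is at most `3` with respect to the
generating set `a, b, ab`, and infinite with respect to the generating set `a, b`. -/
theorem result :
    Subgroup.closure (X : Set (FreeGroup (Fin 2))) = ⊤ ∧
    Subgroup.closure (Y : Set (FreeGroup (Fin 2))) = ⊤ ∧
    palWidth X ≤ 3 ∧ palWidth Y = ⊤ := by
  refine ⟨closX, closY, ?_, ?_⟩
  · refine iSup_le fun g => ?_
    exact iInf₂_le (3 : ℕ) (palX g)
  · by_contra hne
    obtain ⟨N, hN⟩ := ENat.ne_top_iff_exists.1 hne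
    apply Pool.Agent.Helpers.H19d.infinite_width
    refine ⟨N, fun g => ?_⟩
    have h1 : palLength Y g ≤ (N : ℕ∞) := by
      rw [hN]
      exact le_iSup (fun g => palLength Y g) g
    by_contra hno
    have h2 : ((N + 1 : ℕ) : ℕ∞) ≤ palLength Y g := by
      refine le_iInf₂ fun k hk => ?_
      by_contra hlt
      push Not at hlt
      have hlt' : k < N + 1 := by exact_mod_cast hlt
      obtain ⟨ps, h3, h4, h5⟩ := hk
      exact hno ⟨ps, by omega, h5, fun p hp => list_of_pal Y (h4 p hp)⟩
    have h3 := h2.trans h1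
    have h4 : N + 1 ≤ N := by exact_mod_cast h3
    omega

end Pool.Agent.Results.MP_8bc403_al.PalWidth
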